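import Pool.Agent.Helper30.SY.St

/-! # Project SY, module UB: the union bound in a finite product space -/

set_option autoImplicit false

namespace Pool.Agent.Helper10.SY

open Finset Pool.Agent.Helper93.IA Pool.Agent.Helper30.SY

theorem hUB : StUB := by
  intro ι _ _ κ _ _ w J _ f t r hw hs hj hr
  by_contra hcon
  push Not at hcon
  have hw0 : ∀ σ : ι → κ, 0 ≤ ∏ i, w i (σ i) := fun σ => prod_nonneg fun i _ => hw i _
  have h1 : ∑ σ : ι → κ, ∏ i, w i (σ i) = 1 := by
    rw [← Fintype.piFinset_univ, ← Finset.prod_univ_sum]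
    exact prod_eq_one fun i _ => hs i
  have h2 : ∀ σ : ι → κ, (1 : ℝ) ≤ ∑ j, (if Ex w (f j) + t j ≤ f j σ then (1 : ℝ) else 0) := by
    intro σ
    obtain ⟨j, hj'⟩ := hcon σ
    refine le_trans (le_of_eq ?_) (single_le_sum (fun j _ => ?_) (mem_univ j))
    · rw [if_pos hj']
    · split_ifs <;> norm_num
  have h3 : (1 : ℝ) ≤ ∑ j, Ex w (fun σ => if Ex w (f j) + t j ≤ f j σ then 1 else 0) := by
    unfold Ex
    rw [sum_comm]
    calc (1 : ℝ) = ∑ σ : ι → κ, (∏ i, w i (σ i)) * 1 := by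
          rw [← sum_mul, h1, one_mul]
      _ ≤ ∑ σ : ι → κ, (∏ i, w i (σ i)) *
          ∑ j, (if Ex w (f j) + t j ≤ f j σ then (1 : ℝ) else 0) :=
          sum_le_sum fun σ _ => mul_le_mul_of_nonneg_left (h2 σ) (hw0 σ)
      _ = _ := by
          refine sum_congr rfl fun σ _ => ?_
          rw [mul_sum]
          rfl
  have h4 := sum_le_sum fun j (_ : j ∈ (univ : Finset J)) => hj j
  linarith

end Pool.Agent.Helper10.SY
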